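import Mathlib

set_option autoImplicit false

namespace Pool.Agent.H.MP_07f7bf_an

open Filter Topology
open scoped RealInnerProductSpace

abbrev E := EuclideanSpace ℝ (Fin 3)

def X : Type := Fin 3 → ℝ

instance : AddCommGroup X := inferInstanceAs (AddCommGroup (Fin 3 → ℝ))
instance : Module ℝ X := inferInstanceAs (Module ℝ (Fin 3 → ℝ))
instance : FiniteDimensional ℝ X := inferInstanceAs (FiniteDimensional ℝ (Fin 3 → ℝ))
instance : Nontrivial X := inferInstanceAs (Nontrivial (Fin 3 → ℝ))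

def p : X →ₗ[ℝ] E where
  toFun x := !₂[x 0, x 1, x 2]
  map_add' x y := by ext i; fin_cases i <;> rfl
  map_smul' c x := by ext i; fin_cases i <;> rfl

def q : X →ₗ[ℝ] E where
  toFun x := !₂[x 0, 2 * x 1, 3 * x 2]
  map_add' x y := by
    ext i
    fin_cases i
    · rfl
    · exact mul_add _ _ _
    · exact mul_add _ _ _
  map_smul' c x := by
    ext i
    fin_cases i
    · rfl
    · exact mul_left_comm _ _ _
    · exact mul_left_comm _ _ _

theorem p_inner (x y : X) : ⟪p x, p y⟫ = x 0 * y 0 + x 1 * y 1 + x 2 * y 2 := by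
  simp [p, PiLp.inner_apply, Fin.sum_univ_three, mul_comm]

theorem q_inner (x y : X) : ⟪q x, q y⟫ = x 0 * y 0 + 4 * x 1 * y 1 + 9 * x 2 * y 2 := by
  simp [q, PiLp.inner_apply, Fin.sum_univ_three]
  ring

theorem p_ne {x : X} (hx : x ≠ 0) : p x ≠ 0 := fun h => hx <| funext fun i => by
  have := congrArg (fun v : E => v i) h
  fin_cases i <;> exact this

theorem q_ne {x : X} (hx : x ≠ 0) : q x ≠ 0 := fun h => hx <| funext fun i => by
  have := congrArg (fun v : E => v i) h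
  fin_cases i
  · exact this
  · exact (mul_eq_zero.mp this).resolve_left two_ne_zero
  · exact (mul_eq_zero.mp this).resolve_left three_ne_zero

noncomputable def f : X →ₗ[ℝ] WithLp 1 (E × E) :=
  (WithLp.linearEquiv 1 ℝ (E × E)).symm.toLinearMap.comp (p.prod q)

theorem f_inj : Function.Injective f := (injective_iff_map_eq_zero f).mpr fun x hx => by
  by_contra h
  exact p_ne h (congrArg (fun v : WithLp 1 (E × E) => v.fst) hx)

noncomputable instance : NormedAddCommGroup X := NormedAddCommGroup.induced X _ f f_inj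
noncomputable instance : NormedSpace ℝ X := NormedSpace.induced ℝ X _ f

theorem norm_eq (x : X) : ‖x‖ = ‖p x‖ + ‖q x‖ := WithLp.prod_norm_eq_of_L1 (f x)

def A0 : X →ₗ[ℝ] X →ₗ[ℝ] X :=
  LinearMap.mk₂ ℝ (fun x y => (![5 * (x 1 * y 2), -8 * (x 2 * y 0), 3 * (x 0 * y 1)] : Fin 3 → ℝ))
    (fun x x' y => by
      funext i
      change _ = (![_, _, _] : Fin 3 → ℝ) i + (![_, _, _] : Fin 3 → ℝ) i
      have e : ∀ j, (x + x') j = x j + x' j := fun _ => rfl
      fin_cases i <;> simp [e] <;> ring)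
    (fun c x y => by
      funext i
      change _ = c * (![_, _, _] : Fin 3 → ℝ) i
      have e : ∀ j, (c • x) j = c * x j := fun _ => rfl
      fin_cases i <;> simp [e] <;> ring)
    (fun x y y' => by
      funext i
      change _ = (![_, _, _] : Fin 3 → ℝ) i + (![_, _, _] : Fin 3 → ℝ) i
      have e : ∀ j, (y + y') j = y j + y' j := fun _ => rfl
      fin_cases i <;> simp [e] <;> ring)
    (fun c x y => by
      funext i
      change _ = c * (![_, _, _] : Fin 3 → ℝ) i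
      have e : ∀ j, (c • y) j = c * y j := fun _ => rfl
      fin_cases i <;> simp [e] <;> ring)

noncomputable def A : X →L[ℝ] X →L[ℝ] X :=
  LinearMap.toContinuousLinearMap
    ((LinearMap.toContinuousLinearMap : (X →ₗ[ℝ] X) ≃ₗ[ℝ] X →L[ℝ] X).toLinearMap.comp A0)

theorem A_apply (x y : X) :
    A x y = (![5 * (x 1 * y 2), -8 * (x 2 * y 0), 3 * (x 0 * y 1)] : Fin 3 → ℝ) := rfl

theorem orth (a b : E) (ha : a ≠ 0) (h : ⟪a, b⟫ = 0) (t : ℝ) :
    ‖a + t • b‖ ≤ ‖a‖ + t ^ 2 * (‖b‖ ^ 2 / ‖a‖) := by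
  have a0 := norm_pos_iff.mpr ha
  refine abs_le_of_sq_le_sq' ?_ (by positivity) |>.2
  rw [norm_add_sq_real, inner_smul_right, h, norm_smul, mul_pow, Real.norm_eq_abs, sq_abs]
  have e : ‖a‖ * (‖b‖ ^ 2 / ‖a‖) = ‖b‖ ^ 2 := by field_simp
  have : 0 ≤ t ^ 2 * ‖b‖ ^ 2 := by positivity
  have e2 : (‖a‖ + t ^ 2 * (‖b‖ ^ 2 / ‖a‖)) ^ 2 =
      ‖a‖ ^ 2 + 2 * t ^ 2 * (‖a‖ * (‖b‖ ^ 2 / ‖a‖)) + (t ^ 2 * (‖b‖ ^ 2 / ‖a‖)) ^ 2 := by ring
  rw [e2, e]
  nlinarith [sq_nonneg (t ^ 2 * (‖b‖ ^ 2 / ‖a‖))]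

theorem tangent (x : X) (φ : X →L[ℝ] ℝ) (hx : ‖x‖ = 1) (hφ : ‖φ‖ = 1) (h : φ x = 1) :
    φ (A x x) = 0 := by
  have x0 : x ≠ 0 := by rintro rfl; simp at hx
  set y := A x x with hy
  have h1 : ⟪p x, p y⟫ = 0 := by rw [p_inner, hy, A_apply]; simp; ring
  have h2 : ⟪q x, q y⟫ = 0 := by rw [q_inner, hy, A_apply]; simp; ring
  set C := ‖p y‖ ^ 2 / ‖p x‖ + ‖q y‖ ^ 2 / ‖q x‖ with hC
  have C0 : 0 ≤ C := by positivity
  have key : ∀ t : ℝ, t * φ y ≤ t ^ 2 * C := by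
    intro t
    have a := (le_abs_self _).trans (φ.le_opNorm (x + t • y))
    have b := orth _ _ (p_ne x0) h1 t
    have c := orth _ _ (q_ne x0) h2 t
    rw [norm_eq] at hx
    rw [hφ, one_mul, norm_eq] at a
    simp only [map_add, map_smul, h, smul_eq_mul] at a
    rw [hC]
    linarith
  have := key (φ y / (C + 1))
  have e : (φ y / (C + 1)) ^ 2 * C = (φ y) ^ 2 * C / (C + 1) ^ 2 := by field_simp
  have e2 : φ y / (C + 1) * φ y = (φ y) ^ 2 * (C + 1) / (C + 1) ^ 2 := by field_simp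
  rw [e, e2, div_le_div_iff_of_pos_right (by positivity)] at this
  nlinarith [sq_nonneg (φ y)]

theorem quad : ∃ B : X →L[ℝ] X →L[ℝ] X, (∀ x, ‖x‖ ≤ 1 → ‖B x x‖ ≤ 1) ∧
    (∃ x, ‖x‖ ≤ 1 ∧ ‖B x x‖ = 1) ∧
    ∀ (x : X) (φ : X →L[ℝ] ℝ), ‖x‖ = 1 → ‖φ‖ = 1 → φ x = 1 → φ (B x x) = 0 := by
  have : ProperSpace X := FiniteDimensional.proper ℝ X
  obtain ⟨z, hz, hm⟩ := (isCompact_closedBall (0 : X) 1).exists_isMaxOn
    ⟨0, Metric.mem_closedBall_self zero_le_one⟩ (f := fun x => ‖A x x‖) (by fun_prop)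
  have pos : 0 < ‖A z z‖ := by
    let u : X := (![1, 1, 1] : Fin 3 → ℝ)
    have u0 : A u u ≠ 0 := fun h => by
      have := congrFun h 0
      rw [A_apply] at this
      change 5 * (1 * 1 : ℝ) = 0 at this
      norm_num at this
    have u1 : u ≠ 0 := by rintro h; simp [h] at u0
    have n0 := norm_pos_iff.mpr u1
    refine lt_of_lt_of_le ?_ (hm (a := ‖u‖⁻¹ • u) ?_)
    · simp only [map_smul, _root_.smul_apply, norm_smul]
      have := norm_pos_iff.mpr u0
      have : 0 < ‖‖u‖⁻¹‖ := by simpa using u1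
      positivity
    · simp [norm_smul, n0.ne']
  refine ⟨‖A z z‖⁻¹ • A, fun x hx => ?_, ⟨z, by simpa using hz, ?_⟩, fun x φ h1 h2 h3 => ?_⟩
  · simp only [_root_.smul_apply, norm_smul, norm_inv, norm_norm]
    exact inv_mul_le_one_of_le₀ (hm (by simpa using hx)) pos.le
  · simp [norm_smul, pos.ne']
  · simp [tangent x φ h1 h2 h3]

theorem rigid (T : X →L[ℝ] X)
    (h : ∀ (x : X) (φ : X →L[ℝ] ℝ), ‖x‖ = 1 → ‖φ‖ = 1 → φ x = 1 → φ (T x) = 0) : T = 0 := by
  have key : ∀ x : X, x ≠ 0 → ‖q x‖ * ⟪p x, p (T x)⟫ + ‖p x‖ * ⟪q x, q (T x)⟫ = 0 := by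
    intro x x0
    have a0 := norm_pos_iff.mpr (p_ne x0)
    have b0 := norm_pos_iff.mpr (q_ne x0)
    have n0 := norm_pos_iff.mpr x0
    let φ : X →L[ℝ] ℝ := LinearMap.toContinuousLinearMap
      (‖p x‖⁻¹ • (innerₗ E (p x)).comp p + ‖q x‖⁻¹ • (innerₗ E (q x)).comp q)
    have e : ∀ y, φ y = ‖p x‖⁻¹ * ⟪p x, p y⟫ + ‖q x‖⁻¹ * ⟪q x, q y⟫ := fun y => rfl
    have e1 : φ (‖x‖⁻¹ • x) = 1 := by
      rw [map_smul, e, real_inner_self_eq_norm_mul_norm, real_inner_self_eq_norm_mul_norm,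
        smul_eq_mul, norm_eq]
      field_simp
    have e2 : ‖‖x‖⁻¹ • x‖ = 1 := by simp [norm_smul, n0.ne']
    have e3 : ‖φ‖ = 1 := by
      refine le_antisymm (φ.opNorm_le_bound zero_le_one fun y => ?_) ?_
      · rw [e, norm_eq, one_mul]
        refine (norm_add_le _ _).trans (add_le_add ?_ ?_)
        · rw [norm_mul, norm_inv, norm_norm, inv_mul_le_iff₀ a0]
          exact norm_inner_le_norm _ _
        · rw [norm_mul, norm_inv, norm_norm, inv_mul_le_iff₀ b0]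
          exact norm_inner_le_norm _ _
      · simpa [e1, e2] using φ.le_opNorm (‖x‖⁻¹ • x)
    have := h _ φ e2 e3 e1
    rw [map_smul, map_smul, e, smul_eq_mul, mul_eq_zero] at this
    have := this.resolve_left (inv_ne_zero n0.ne')
    field_simp at this
    linarith
  have sq : ∀ x : X, x ≠ 0 → ⟪q x, q x⟫ * ⟪p x, p (T x)⟫ ^ 2 = ⟪p x, p x⟫ * ⟪q x, q (T x)⟫ ^ 2 := by
    intro x x0
    rw [real_inner_self_eq_norm_sq, real_inner_self_eq_norm_sq, ← mul_pow, ← mul_pow,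
      eq_neg_of_add_eq_zero_left (key x x0), neg_sq]
  let u0 : X := (![1, 0, 0] : Fin 3 → ℝ)
  let u1 : X := (![0, 1, 0] : Fin 3 → ℝ)
  let u2 : X := (![0, 0, 1] : Fin 3 → ℝ)
  have dec : ∀ x : X, x = x 0 • u0 + x 1 • u1 + x 2 • u2 := fun x => funext fun i => by
    change _ = x 0 * u0 i + x 1 * u1 i + x 2 * u2 i
    fin_cases i <;> simp [u0, u1, u2]
  have hT : ∀ (x : X) i, T x i = x 0 * T u0 i + x 1 * T u1 i + x 2 * T u2 i := by
    intro x i
    conv_lhs => rw [dec x]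
    rw [map_add, map_add, map_smul, map_smul, map_smul]
    rfl
  have S : ∀ a b c : ℝ, 0 < a + b + c → (a * a + 4 * b * b + 9 * c * c) *
      (a * (a * T u0 0 + b * T u1 0 + c * T u2 0) + b * (a * T u0 1 + b * T u1 1 + c * T u2 1) +
        c * (a * T u0 2 + b * T u1 2 + c * T u2 2)) ^ 2 = (a * a + b * b + c * c) *
      (a * (a * T u0 0 + b * T u1 0 + c * T u2 0) + 4 * b * (a * T u0 1 + b * T u1 1 + c * T u2 1) +
        9 * c * (a * T u0 2 + b * T u1 2 + c * T u2 2)) ^ 2 := by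
    intro a b c habc
    have := sq (![a, b, c] : Fin 3 → ℝ) fun e => by
      have e0 : a = 0 := congrFun e 0
      have e1 : b = 0 := congrFun e 1
      have e2 : c = 0 := congrFun e 2
      simp [e0, e1, e2] at habc
    rw [p_inner, p_inner, q_inner, q_inner, hT _ 0, hT _ 1, hT _ 2] at this
    exact this
  have d0 : T u0 0 = 0 := by
    have u : u0 ≠ 0 := fun e => one_ne_zero (congrFun e 0)
    have := key u0 u
    rw [p_inner, q_inner] at this
    have a0 := norm_pos_iff.mpr (p_ne u)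
    have b0 := norm_pos_iff.mpr (q_ne u)
    have : (‖q u0‖ + ‖p u0‖) * T u0 0 = 0 := by simpa [u0, add_mul] using this
    exact (mul_eq_zero.mp this).resolve_left (by positivity)
  have d1 : T u1 1 = 0 := by have := S 0 1 0 (by norm_num); nlinarith [sq_nonneg (T u1 1)]
  have d2 : T u2 2 = 0 := by have := S 0 0 1 (by norm_num); nlinarith [sq_nonneg (T u2 2)]
  have two : ∀ a b k l : ℝ, k ≠ l → (k + l) * (a + b) ^ 2 = 2 * (k * a + l * b) ^ 2 →
      (k + 4 * l) * (a + b) ^ 2 = 5 * (k * a + l * b) ^ 2 → a = 0 ∧ b = 0 := by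
    intro a b k l hkl h1 h2
    have h3 : (k - l) * (a + b) ^ 2 = 0 := by linarith
    have h4 : a + b = 0 := pow_eq_zero_iff two_ne_zero |>.mp
      ((mul_eq_zero.mp h3).resolve_left (sub_ne_zero.mpr hkl))
    have h5 : k * a + l * b = 0 := by
      rw [h4] at h1
      exact pow_eq_zero_iff two_ne_zero |>.mp (by linarith)
    have h6 : (k - l) * a = 0 := by linear_combination h5 - l * h4
    have h7 := (mul_eq_zero.mp h6).resolve_left (sub_ne_zero.mpr hkl)
    exact ⟨h7, by linarith⟩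
  have s1 := S 1 1 0 (by norm_num)
  have s2 := S 1 2 0 (by norm_num)
  have s3 := S 1 0 1 (by norm_num)
  have s4 := S 1 0 2 (by norm_num)
  have s5 := S 0 1 1 (by norm_num)
  have s6 := S 0 1 2 (by norm_num)
  rw [d0, d1, d2] at s1 s2 s3 s4 s5 s6
  obtain ⟨o1, o2⟩ := two (T u1 0) (T u0 1) 1 4 (by norm_num) (by linarith) (by linarith)
  obtain ⟨o3, o4⟩ := two (T u2 0) (T u0 2) 1 9 (by norm_num) (by linarith) (by linarith)
  obtain ⟨o5, o6⟩ := two (T u2 1) (T u1 2) 4 9 (by norm_num) (by linarith) (by linarith)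
  ext1 x
  funext i
  rw [hT]
  fin_cases i <;> simp [d0, d1, d2, o1, o2, o3, o4, o5, o6] <;> rfl

theorem lin : ∃ c > 0, ∀ T : X →L[ℝ] X, ‖T‖ = 1 →
    ∃ (x : X) (φ : X →L[ℝ] ℝ), ‖x‖ = 1 ∧ ‖φ‖ = 1 ∧ φ x = 1 ∧ c ≤ |φ (T x)| := by
  by_contra h
  push Not at h
  choose T hT hT2 using fun n : ℕ => h (1 / (n + 1)) Nat.one_div_pos_of_nat
  have : ProperSpace (X →L[ℝ] X) := FiniteDimensional.proper ℝ _
  obtain ⟨S, hS, k, hk, hl⟩ := (isCompact_sphere (0 : X →L[ℝ] X) 1).tendsto_subseq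
    (x := T) fun n => by simpa using hT n
  have : S = 0 := rigid S fun x φ h1 h2 h3 => by
    have c : Continuous fun R : X →L[ℝ] X => |φ (R x)| := by fun_prop
    exact abs_nonpos_iff.mp (le_of_tendsto_of_tendsto' ((c.tendsto S).comp hl)
      (tendsto_one_div_add_atTop_nhds_zero_nat.comp hk.tendsto_atTop)
      fun n => (hT2 (k n) x φ h1 h2 h3).le)
  simp [this] at hS

end Pool.Agent.H.MP_07f7bf_an
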